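import Pool.Agent.H56.DR.Pair
import Pool.Agent.H56.DC.TCI
import Pool.Agent.H52.PAG.Pdw
import Pool.Agent.H54.DD.Defs

/-!
# The representation of an Artin group of large type, injective on the stabilisers
-/

set_option autoImplicit false

namespace Pool.Agent.H56.DR

open Pool.Agent.H52.PAG Pool.Agent.H54.DD
open Pool.Agent.H56.DC hiding par

variable {B K : Type} [Fintype B] [DecidableEq B] [CommRing K]

/-- the alternating form -/
def aa (lam : B → B → K) (ord : B → ℕ) (i j : B) : K :=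
  if ord i < ord j then lam i j else if ord j < ord i then -lam j i else 0

theorem aa_self (lam : B → B → K) (ord : B → ℕ) (i : B) : aa lam ord i i = 0 := by
  simp [aa]

theorem aa_lt (lam : B → B → K) (ord : B → ℕ) {i j : B} (h : ord j < ord i) :
    aa lam ord j i = lam j i ∧ aa lam ord i j = -lam j i := by
  refine ⟨if_pos h, ?_⟩
  unfold aa
  rw [if_neg (by omega), if_pos h]

section

variable (φ : K →+* ℝ) (a : B → B → K)

/-- the matrix `X` acts on the span of `e_i`, `e_j` as `g` -/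
def RelR (i j : B) (X : Matrix B B K) (g : G2) : Prop :=
  ∃ A : Matrix (Fin 2) (Fin 2) K, Rel a i j X A ∧ A.map φ = mt g

variable {φ a}

theorem RelR.one (i j : B) : RelR φ a i j 1 1 :=
  ⟨1, Rel.one a i j, by rw [Matrix.map_one _ (map_zero φ) (map_one φ), mt_one]⟩

theorem RelR.mul {i j : B} {X Y : Matrix B B K} {g h : G2} (hX : RelR φ a i j X g)
    (hY : RelR φ a i j Y h) : RelR φ a i j (X * Y) (g * h) := by
  obtain ⟨A, h1, h2⟩ := hX
  obtain ⟨A', h3, h4⟩ := hY
  exact ⟨A * A', h1.mul h3, by rw [Matrix.map_mul, h2, h4, mt_mul]⟩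

theorem RelR.alt {i j : B} {X Y : Matrix B B K} {g h : G2} (hX : RelR φ a i j X g)
    (hY : RelR φ a i j Y h) (n : ℕ) :
    RelR φ a i j (Pool.Agent.H52.PAG.alt X Y n) (Pool.Agent.H52.PAG.alt g h n) := by
  induction n generalizing X Y g h with
  | zero => exact RelR.one i j
  | succ n ih => exact hX.mul (ih hY hX)

theorem map_inj (hφ : Function.Injective φ) {A A' : Matrix (Fin 2) (Fin 2) K}
    (h : A.map φ = A'.map φ) : A = A' :=
  Matrix.map_injective hφ h

theorem RelR.inj [IsDomain K] (hφ : Function.Injective φ) {i j : B} (hi : a i i = 0) (hj : a j j = 0)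
    (h1 : a i j ≠ 0) (h2 : a j i ≠ 0)
    {X Y : Matrix B B K} {g : G2} (hX : RelR φ a i j X g) (hY : RelR φ a i j Y g) : X = Y := by
  obtain ⟨A, h3, h4⟩ := hX
  obtain ⟨A', h5, h6⟩ := hY
  have h7 : A = A' := map_inj hφ (h4.trans h6.symm)
  subst h7
  exact h3.inj hi hj h1 h2 h5

theorem RelR.eq_one [IsDomain K] {i j : B} (hi : a i i = 0) (hj : a j j = 0) (h1 : a i j ≠ 0) (h2 : a j i ≠ 0)
    {g : G2} (hX : RelR φ a i j 1 g) : g = 1 := by
  obtain ⟨A, h3, h4⟩ := hX
  have h5 := h3.eq_one hi hj h1 h2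
  rw [h5, Matrix.map_one _ (map_zero φ) (map_one φ)] at h4
  exact mt_inj (by rw [← h4, mt_one])

theorem relR_fst {i j : B} (hi : a i i = 0) (hj : a j j = 0) {L : ℝ} (hL : φ (a j i) = L) :
    RelR φ a i j (Tm a i) (SS L) := by
  refine ⟨_, rel_fst hi hj, ?_⟩
  rw [mt_SS]
  ext k l
  fin_cases k <;> fin_cases l <;> simp [hL]

theorem relR_snd {i j : B} (hi : a i i = 0) (hj : a j j = 0) {L : ℝ} (hL : φ (a i j) = -L) :
    RelR φ a i j (Tm a j) (TT L) := by
  refine ⟨_, rel_snd hi hj, ?_⟩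
  rw [mt_TT]
  ext k l
  fin_cases k <;> fin_cases l <;> simp [hL]

theorem relR_fst_inv {i j : B} (hi : a i i = 0) (hj : a j j = 0) {L : ℝ} (hL : φ (a j i) = L) :
    RelR φ a i j (1 - Em a i) (SS L)⁻¹ := by
  refine ⟨_, rel_fst_inv hi hj, ?_⟩
  rw [mt_inv, mt_SS, Matrix.adjugate_fin_two_of]
  ext k l
  fin_cases k <;> fin_cases l <;> simp [hL]

theorem relR_snd_inv {i j : B} (hi : a i i = 0) (hj : a j j = 0) {L : ℝ} (hL : φ (a i j) = -L) :
    RelR φ a i j (1 - Em a j) (TT L)⁻¹ := by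
  refine ⟨_, rel_snd_inv hi hj, ?_⟩
  rw [mt_inv, mt_TT, Matrix.adjugate_fin_two_of]
  ext k l
  fin_cases k <;> fin_cases l <;> simp [hL]

end

/-- large type: all labels are at least three (or infinite) -/
def Lt (M : CoxeterMatrix B) : Prop := ∀ i j, i ≠ j → M i j = 0 ∨ 3 ≤ M i j

/-- the data: an embedding of `K` in `ℝ`, elements `lam i j` with the images `2 cos (π / M i j)`, an order -/
structure Dat (K : Type) [CommRing K] (M : CoxeterMatrix B) where
  /-- the embedding -/
  φ : K →+* ℝ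
  φinj : Function.Injective φ
  /-- the numbers `2 cos (π / m)` -/
  lam : B → B → K
  /-- an order of the generators -/
  ord : B → ℕ
  inj : Function.Injective ord
  large : Lt M
  hlam : ∀ i j, i ≠ j → M i j ≠ 0 → φ (lam i j) = LL (M i j)

namespace Dat

variable {M : CoxeterMatrix B} (D : Dat K M) [IsDomain K]

/-- the form -/
def a : B → B → K := aa D.lam D.ord

theorem a_self (i : B) : D.a i i = 0 := aa_self _ _ i

theorem lt_or (i j : B) (h : i ≠ j) : D.ord j < D.ord i ∨ D.ord i < D.ord j :=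
  (lt_or_gt_of_ne fun e => h (D.inj e)).symm

theorem pair {i j : B} (h : D.ord j < D.ord i) (hm : M i j ≠ 0) :
    D.φ (D.a j i) = LL (M i j) ∧ D.φ (D.a i j) = -LL (M i j) ∧ D.a i j ≠ 0 ∧ D.a j i ≠ 0 := by
  have hij : j ≠ i := by
    rintro rfl
    omega
  have hm' : M j i ≠ 0 := by rwa [M.symmetric]
  have h1 := D.hlam j i hij hm'
  rw [M.symmetric j i] at h1
  have h3 : 3 ≤ M i j := (D.large i j hij.symm).resolve_left hm
  have h4 := LL_pos h3
  obtain ⟨h5, h6⟩ := aa_lt D.lam D.ord h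
  have h7 : D.lam j i ≠ 0 := by
    intro e
    rw [e, map_zero] at h1
    linarith
  refine ⟨?_, ?_, ?_, ?_⟩
  · show D.φ (aa D.lam D.ord j i) = _
    rw [h5, h1]
  · show D.φ (aa D.lam D.ord i j) = _
    rw [h6, map_neg, h1]
  · show aa D.lam D.ord i j ≠ 0
    rw [h6]
    exact neg_ne_zero.2 h7
  · show aa D.lam D.ord j i ≠ 0
    rw [h5]
    exact h7

theorem three {i j : B} (h : D.ord j < D.ord i) (hm : M i j ≠ 0) : 3 ≤ M i j :=
  (D.large i j (by rintro rfl; omega)).resolve_left hm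

theorem braid_lt {i j : B} (h : D.ord j < D.ord i) (hm : M i j ≠ 0) :
    alt (Tm D.a i) (Tm D.a j) (M i j) = alt (Tm D.a j) (Tm D.a i) (M i j) := by
  obtain ⟨h1, h2, h3, h4⟩ := D.pair h hm
  have h5 := (relR_fst (D.a_self i) (D.a_self j) h1).alt (relR_snd (D.a_self i) (D.a_self j) h2) (M i j)
  have h6 := (relR_snd (D.a_self i) (D.a_self j) h2).alt (relR_fst (D.a_self i) (D.a_self j) h1) (M i j)
  rw [← braid_G2 (by have := D.three h hm; omega)] at h6
  exact h5.inj D.φinj (D.a_self i) (D.a_self j) h3 h4 h6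

/-- the transvections -/
def T (i : B) : GL B K := Tu D.a i (D.a_self i)

theorem T_val (i : B) : (D.T i : Matrix B B K) = Tm D.a i := rfl

theorem T_inv_val (i : B) : ((D.T i)⁻¹ : GL B K).1 = 1 - Em D.a i := rfl

theorem braid (i j : B) (hm : M i j ≠ 0) : alt (D.T i) (D.T j) (M i j) = alt (D.T j) (D.T i) (M i j) := by
  rcases eq_or_ne i j with rfl | hij
  · rfl
  · apply Units.ext
    have key : ∀ (x y : B) (n : ℕ), (alt (D.T x) (D.T y) n : GL B K).1 = alt (Tm D.a x) (Tm D.a y) n := by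
      intro x y n
      exact map_alt (Units.coeHom (Matrix B B K)) (D.T x) (D.T y) n
    rw [key, key]
    rcases D.lt_or i j hij with h | h
    · exact D.braid_lt h hm
    · have hm' : M j i ≠ 0 := by rwa [M.symmetric]
      rw [M.symmetric i j]
      exact (D.braid_lt h hm').symm

/-- the representation -/
def rho : Art M →* GL B K := lift D.T D.braid

theorem rho_gen (i : B) : D.rho (gen M i) = D.T i := lift_gen _ _ i

theorem rel_inc {i j : B} (h : D.ord j < D.ord i) (hm : M i j ≠ 0) (h2 : 2 ≤ M i j) (x : DA (M i j)) :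
    RelR D.φ D.a i j (D.rho (inc M i j hm x)).1 (rho2 h2 x) := by
  obtain ⟨h3, h4, -, -⟩ := D.pair h hm
  have e1 : D.rho (inc M i j hm (dg (M i j) false)) = D.T i := by
    rw [inc_dg]
    exact D.rho_gen i
  have e2 : D.rho (inc M i j hm (dg (M i j) true)) = D.T j := by
    rw [inc_dg]
    exact D.rho_gen j
  have r1 : rho2 h2 (dg (M i j) false) = SS (LL (M i j)) := dlift_dg _ _ false
  have r2 : rho2 h2 (dg (M i j) true) = TT (LL (M i j)) := dlift_dg _ _ true
  have p1 : RelR D.φ D.a i j (D.T i).1 (SS (LL (M i j))) := relR_fst (D.a_self i) (D.a_self j) h3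
  have p2 : RelR D.φ D.a i j (D.T j).1 (TT (LL (M i j))) := relR_snd (D.a_self i) (D.a_self j) h4
  have q1 : RelR D.φ D.a i j ((D.T i)⁻¹).1 (SS (LL (M i j)))⁻¹ :=
    relR_fst_inv (D.a_self i) (D.a_self j) h3
  have q2 : RelR D.φ D.a i j ((D.T j)⁻¹).1 (TT (LL (M i j)))⁻¹ :=
    relR_snd_inv (D.a_self i) (D.a_self j) h4
  induction x using da_induction with
  | h1 =>
    rw [map_one, map_one, map_one]
    exact RelR.one i j
  | h2 x e ih =>
    rw [map_mul, map_mul, map_mul, Units.val_mul]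
    refine ih.mul ?_
    cases e
    · rw [e1, r1]
      exact p1
    · rw [e2, r2]
      exact p2
  | h3 x e ih =>
    rw [map_mul, map_mul, map_mul, map_inv, map_inv, map_inv, Units.val_mul]
    refine ih.mul ?_
    cases e
    · rw [e1, r1]
      exact q1
    · rw [e2, r2]
      exact q2

end Dat

/-- the degree -/
def dg1 (M : CoxeterMatrix B) : Art M →* Multiplicative ℤ :=
  lift (fun _ => Multiplicative.ofAdd 1) fun _ _ _ => rfl

theorem dg1_gen (M : CoxeterMatrix B) (i : B) : dg1 M (gen M i) = Multiplicative.ofAdd 1 := lift_gen _ _ i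

namespace Dat

variable {M : CoxeterMatrix B} (D : Dat K M) [IsDomain K]

/-- the representation and the degree -/
def ff : Art M →* GL B K × Multiplicative ℤ := D.rho.prod (dg1 M)

theorem dg1_inc {i j : B} (hm : M i j ≠ 0) (x : DA (M i j)) : dg1 M (inc M i j hm x) = dega (M i j) x := by
  have h : (dg1 M).comp (inc M i j hm) = dega (M i j) := by
    refine da_ext (G := Multiplicative ℤ) (f := (dg1 M).comp (inc M i j hm)) (g := dega (M i j)) fun e => ?_
    show dg1 M (inc M i j hm (dg (M i j) e)) = _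
    rw [inc_dg, dg1_gen]
    exact (dlift_dg (G := Multiplicative ℤ) (fun _ => Multiplicative.ofAdd 1) rfl e).symm
  exact DFunLike.congr_fun h x

theorem ff_closure_lt {i j : B} (h : D.ord j < D.ord i) (hm : M i j ≠ 0) {g : Art M}
    (hg : g ∈ Subgroup.closure {gen M i, gen M j}) (h1 : D.ff g = 1) : g = 1 := by
  rw [← inc_range M i j hm] at hg
  obtain ⟨x, rfl⟩ := hg
  have h3 := D.three h hm
  have h2 : 2 ≤ M i j := by omega
  obtain ⟨-, -, h4, h5⟩ := D.pair h hm
  have h6 : D.rho (inc M i j hm x) = 1 := congrArg Prod.fst h1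
  have h7 : dg1 M (inc M i j hm x) = 1 := congrArg Prod.snd h1
  rw [dg1_inc] at h7
  have h8 := D.rel_inc h hm h2 x
  rw [h6] at h8
  have h9 := h8.eq_one (D.a_self i) (D.a_self j) h4 h5
  rw [rho2_inj h3 h2 h9 h7, map_one]

/-- injective on the subgroups generated by two generators -/
theorem ff_closure {i j : B} (hij : i ≠ j) (hm : M i j ≠ 0) {g : Art M}
    (hg : g ∈ Subgroup.closure {gen M i, gen M j}) (h1 : D.ff g = 1) : g = 1 := by
  rcases D.lt_or i j hij with h | h
  · exact D.ff_closure_lt h hm hg h1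
  · rw [Set.pair_comm] at hg
    exact D.ff_closure_lt h (by rwa [M.symmetric]) hg h1

/-- injective on the cyclic subgroups of the generators -/
theorem ff_gen {i : B} {g : Art M} (hg : g ∈ Pool.Agent.H56.DC.par M {i}) (h1 : D.ff g = 1) : g = 1 := by
  obtain ⟨k, rfl⟩ := mem_par_singleton.1 hg
  have h2 : dg1 M (gen M i ^ k) = 1 := congrArg Prod.snd h1
  rw [map_zpow, dg1_gen, ← ofAdd_zsmul, smul_eq_mul, mul_one] at h2
  have h3 : k = 0 := Multiplicative.ofAdd.injective h2
  rw [h3, zpow_zero]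

/-- injective on the stabilisers of the vertices of the Deligne complex -/
theorem ff_stab : StabInj (DV M) D.ff := by
  intro v g hv h1
  have key : ∀ (T : Set B) (b : Art M), (∀ x ∈ Pool.Agent.H56.DC.par M T, D.ff x = 1 → x = 1) →
      (QuotientGroup.mk (g * b) : Art M ⧸ Pool.Agent.H56.DC.par M T) = QuotientGroup.mk b → g = 1 := by
    intro T b hT hb
    have h2 : b⁻¹ * (g * b) ∈ Pool.Agent.H56.DC.par M T := QuotientGroup.eq.1 hb.symm
    have h3 : D.ff (b⁻¹ * (g * b)) = 1 := by
      rw [map_mul, map_mul, h1, one_mul, map_inv, inv_mul_cancel]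
    have h4 := hT _ h2 h3
    have h5 : g = b * (b⁻¹ * (g * b)) * b⁻¹ := by group
    rw [h5, h4, mul_one, mul_inv_cancel]
  cases v with
  | ce b =>
    have h2 : DV.ce (g * b) = DV.ce b := hv
    injection h2 with h2
    exact mul_eq_right.1 h2
  | hy i x =>
    obtain ⟨b, rfl⟩ := QuotientGroup.mk_surjective x
    have h2 : DV.hy i (QuotientGroup.mk (g * b) : Art M ⧸ Pool.Agent.H56.DC.par M {i}) = DV.hy i (QuotientGroup.mk b) := hv
    injection h2 with h3 h2
    exact key {i} b (fun x hx => D.ff_gen hx) h2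
  | pt T x =>
    obtain ⟨b, rfl⟩ := QuotientGroup.mk_surjective x
    have h2 : DV.pt T (QuotientGroup.mk (g * b) : Art M ⧸ Pool.Agent.H56.DC.par M T.1) = DV.pt T (QuotientGroup.mk b) := hv
    injection h2 with h3 h2
    refine key T.1 b (fun x hx => ?_) h2
    obtain ⟨i, j, hij, hm, hT⟩ := T.2
    refine D.ff_closure hij hm ?_
    rwa [Pool.Agent.H56.DC.par, hT, Set.image_pair] at hx

end Dat

end Pool.Agent.H56.DR
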