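import Pool.Agent.H56.DR.Rep
import Pool.Agent.H54.AR.Large

/-!
# The representation over the ring generated by the numbers `2 cos (π / m)`
-/

set_option autoImplicit false

namespace Pool.Agent.H56.DR

open Pool.Agent.H52.PAG Pool.Agent.H54.AR
open Pool.Agent.H56.DC hiding par

open Classical in
/-- the data for a finite set of generators -/
noncomputable def dat {B : Type} [Fintype B] (M : CoxeterMatrix B) (h : Lt M) (F : Finset ℕ)
    (hF : ∀ i j, M i j ∈ F) : Dat (cosRing F) M where
  φ := (cosRing F).val.toRingHom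
  φinj := Subtype.val_injective
  lam i j := ⟨2 * Real.cos (Real.pi / (M i j : ℕ)), mem_cosRing (hF i j)⟩
  ord i := (Fintype.equivFin B i : ℕ)
  inj := fun i j hij => (Fintype.equivFin B).injective (Fin.ext hij)
  large := h
  hlam _ _ _ _ := rfl

theorem hasRep (B : Type) [Finite B] (M : CoxeterMatrix B) (h : Pool.Agent.H71.DA.Large M) : HasRep M := by
  classical
  have : Fintype B := Fintype.ofFinite B
  let F : Finset ℕ := Finset.univ.image fun p : B × B => M p.1 p.2
  have hF : ∀ i j, M i j ∈ F := fun i j => Finset.mem_image.2 ⟨(i, j), Finset.mem_univ _, rfl⟩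
  let D := dat M h F hF
  refine ⟨B, inferInstance, inferInstance, F, D.rho, ?_⟩
  intro i j hij hm g hg h1 h2
  refine D.ff_closure hij hm (g := g) ?_ (Prod.ext h1 h2)
  rwa [Pool.Agent.H56.DC.par, Set.image_pair] at hg

end Pool.Agent.H56.DR
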