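import Pool.Agent.H56.DR.Two

/-!
# The representation and the degree are injective on the dihedral Artin group
-/

set_option autoImplicit false

namespace Pool.Agent.H56.DR

open Pool.Agent.H52.PAG

/-- nonnegative, positive diagonal and a positive entry outside the diagonal -/
structure Pos (A : G2) : Prop where
  a : 0 < mt A 0 0
  b : 0 ≤ mt A 0 1
  c : 0 ≤ mt A 1 0
  d : 0 < mt A 1 1
  e : 0 < mt A 0 1 + mt A 1 0

theorem Pos.mul {A A' : G2} (h : Pos A) (h' : Pos A') : Pos (A * A') := by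
  obtain ⟨a, b, c, d, e⟩ := h
  obtain ⟨a', b', c', d', e'⟩ := h'
  have e00 : mt (A * A') 0 0 = mt A 0 0 * mt A' 0 0 + mt A 0 1 * mt A' 1 0 := by
    rw [mt_mul, Matrix.mul_apply, Fin.sum_univ_two]
  have e01 : mt (A * A') 0 1 = mt A 0 0 * mt A' 0 1 + mt A 0 1 * mt A' 1 1 := by
    rw [mt_mul, Matrix.mul_apply, Fin.sum_univ_two]
  have e10 : mt (A * A') 1 0 = mt A 1 0 * mt A' 0 0 + mt A 1 1 * mt A' 1 0 := by
    rw [mt_mul, Matrix.mul_apply, Fin.sum_univ_two]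
  have e11 : mt (A * A') 1 1 = mt A 1 0 * mt A' 0 1 + mt A 1 1 * mt A' 1 1 := by
    rw [mt_mul, Matrix.mul_apply, Fin.sum_univ_two]
  refine ⟨?_, ?_, ?_, ?_, ?_⟩
  · rw [e00]; positivity
  · rw [e01]; positivity
  · rw [e10]; positivity
  · rw [e11]; positivity
  · rw [e01, e10]
    have h1 : 0 ≤ mt A 0 0 * mt A' 0 1 := by positivity
    have h2 : 0 ≤ mt A 1 1 * mt A' 1 0 := by positivity
    rcases b.eq_or_lt with hb | hb
    · have hc : 0 < mt A 1 0 := by linarith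
      have h3 : 0 < mt A 1 0 * mt A' 0 0 := by positivity
      have h4 : 0 ≤ mt A 0 1 * mt A' 1 1 := by positivity
      linarith
    · have h3 : 0 ≤ mt A 1 0 * mt A' 0 0 := by positivity
      have h4 : 0 < mt A 0 1 * mt A' 1 1 := by positivity
      linarith

/-- a positive matrix is not a power of the rotation -/
theorem Pos.not_rot {A : G2} (h : Pos A) (n : ℤ) : A ≠ JJ ^ n := by
  intro hA
  have h1 : A * JJ = JJ * A := by
    rw [hA]
    exact (Commute.refl JJ).zpow_left n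
  have h2 := congrArg mt h1
  rw [mt_mul, mt_mul, mt_JJ] at h2
  have h3 := congrFun (congrFun h2 0) 0
  simp [Matrix.mul_apply] at h3
  have h4 := h.b
  have h5 := h.c
  have h6 := h.e
  linarith

variable {m : ℕ}

/-- the matrices of the blocks -/
theorem exists_block (hm : 3 ≤ m) {a : ℕ} (h1 : 1 ≤ a) (h2 : a + 1 ≤ m) :
    ∃ A : G2, Pos A ∧ (SS (LL m) * JJ) ^ a * JJ⁻¹ = JJ ^ (2 * ((a : ℤ) + 1)) * A := by
  have hm2 : 2 ≤ m := by omega
  have h3 := R_pow hm2 a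
  have ha : (1 : ℝ) ≤ a := by exact_mod_cast h1
  have ha2 : (a : ℝ) + 1 ≤ m := by exact_mod_cast h2
  refine ⟨(JJ ^ (2 * ((a : ℤ) + 1)))⁻¹ * ((SS (LL m) * JJ) ^ a * JJ⁻¹), ?_, by group⟩
  have h4 : mt ((JJ ^ (2 * ((a : ℤ) + 1)))⁻¹ * ((SS (LL m) * JJ) ^ a * JJ⁻¹)) =
      !![sk m a, sk m (a + 1); sk m (a - 1), sk m a] := by
    have h5 : ((JJ : G2) ^ (2 * ((a : ℤ) + 1)))⁻¹ = ((JJ ^ 2) ^ (a + 1))⁻¹ := by
      rw [← pow_mul, ← zpow_natCast]
      push_cast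
      rfl
    have h6 : mt ((JJ ^ 2) ^ (a + 1))⁻¹ = (-1 : ℝ) ^ (a + 1) • 1 := by
      rw [mt_inv, mt_pow, JJ_sq]
      rcases Nat.even_or_odd (a + 1) with he | he
      · rw [he.neg_one_pow, he.neg_one_pow, Matrix.adjugate_one, one_smul]
      · rw [he.neg_one_pow, he.neg_one_pow]
        ext i j
        fin_cases i <;> fin_cases j <;> simp [Matrix.adjugate_fin_two]
    rw [mt_mul, h5, h6, h3, Matrix.smul_mul, Matrix.one_mul, smul_smul, ← mul_pow]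
    norm_num
  refine ⟨?_, ?_, ?_, ?_, ?_⟩
  · rw [h4]
    exact sk_pos hm2 (by linarith) (by linarith)
  · rw [h4]
    exact sk_nonneg hm2 (by linarith) (by linarith)
  · rw [h4]
    exact sk_nonneg hm2 (by linarith) (by linarith)
  · rw [h4]
    exact sk_pos hm2 (by linarith) (by linarith)
  · rw [h4]
    show 0 < sk m (a + 1) + sk m (a - 1)
    rw [sk_rec]
    exact mul_pos (LL_pos hm) (sk_pos hm2 (by linarith) (by linarith))

/-- the image of a normal form -/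
theorem nf_image (hm : 3 ≤ m) (hm2 : 2 ≤ m) {h : DA m} {E : ℕ} (hh : NF m h E) :
    (∃ k : ℤ, h = del m ^ k) ∨
      ∃ (p : ℤ) (A : G2), Pos A ∧ rho2 hm2 h = JJ ^ p * A * (JJ ^ E)⁻¹ := by
  induction hh with
  | dl k E => exact Or.inl ⟨k, rfl⟩
  | blk h E b F _ hb he ih =>
    right
    obtain ⟨V, hV, hV2⟩ := exists_block (m := m) hm (a := b + 1) (by omega) (by omega)
    obtain ⟨l, hl⟩ : ∃ l : ℤ, ((E + b : ℕ) : ℤ) = F - 2 * l :=
      ⟨((F : ℤ) - (E + b : ℕ)) / 2, by omega⟩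
    -- the image of the block
    have h1 : rho2 hm2 (seg m E (b + 1)) =
        JJ ^ E * (JJ ^ (2 * (((b + 1 : ℕ) : ℤ) + 1)) * V) * (JJ ^ (2 * l) * (JJ ^ F)⁻¹) := by
      rw [rho2_seg, ← hV2]
      have h2 : (JJ : G2) ^ (2 * l) * (JJ ^ F)⁻¹ = (JJ ^ (E + b))⁻¹ := by
        rw [← zpow_natCast, ← zpow_natCast, hl, ← zpow_neg, ← zpow_neg, ← zpow_add]
        congr 1
        ring
      rw [h2]
      have h3 : (JJ : G2) ^ (E + (b + 1)) = JJ ^ (E + b) * JJ := by rw [← pow_succ]; rfl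
      rw [h3]
      generalize (SS (LL m) * JJ) ^ (b + 1) = Y
      generalize (JJ : G2) ^ (E + b) = Z
      generalize (JJ : G2) ^ E = W
      group
    rw [map_mul, h1]
    generalize hc : (2 * (((b + 1 : ℕ) : ℤ) + 1)) = c2
    obtain ⟨c, hc'⟩ : ∃ c, c2 = 2 * c := ⟨((b + 1 : ℕ) : ℤ) + 1, hc.symm⟩
    subst hc'
    rcases ih with ⟨k, rfl⟩ | ⟨p, A, hA, hA2⟩
    · refine ⟨((m : ℤ) + 2) * k + E + 2 * c + 2 * l, V, hV, ?_⟩
      rw [map_zpow, rho2_del]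
      have h4 : (JJ : G2) ^ (2 * c) * V * (JJ ^ (2 * l) * (JJ ^ F)⁻¹) =
          JJ ^ (2 * c) * (JJ ^ (2 * l) * V) * (JJ ^ F)⁻¹ := by
        rw [JJ_even l V]
        simp only [mul_assoc]
      calc ((JJ : G2) ^ ((m : ℤ) + 2)) ^ k *
            (JJ ^ E * (JJ ^ (2 * c) * V) * (JJ ^ (2 * l) * (JJ ^ F)⁻¹))
          = ((JJ : G2) ^ ((m : ℤ) + 2)) ^ k * JJ ^ E *
              (JJ ^ (2 * c) * V * (JJ ^ (2 * l) * (JJ ^ F)⁻¹)) := by simp only [mul_assoc]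
        _ = ((JJ : G2) ^ ((m : ℤ) + 2)) ^ k * JJ ^ E *
              (JJ ^ (2 * c) * (JJ ^ (2 * l) * V) * (JJ ^ F)⁻¹) := by rw [h4]
        _ = JJ ^ (((m : ℤ) + 2) * k + E + 2 * c + 2 * l) * V * (JJ ^ F)⁻¹ := by
            rw [← zpow_mul, zpow_add _ _ (2 * l), zpow_add _ _ (2 * c), zpow_add _ _ (E : ℤ), zpow_natCast]
            simp only [mul_assoc]
    · refine ⟨p + 2 * c + 2 * l, A * V, hA.mul hV, ?_⟩
      rw [hA2]
      have h4 : A * ((JJ : G2) ^ (2 * c) * V * (JJ ^ (2 * l) * (JJ ^ F)⁻¹)) =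
          JJ ^ (2 * c) * (JJ ^ (2 * l) * (A * V)) * (JJ ^ F)⁻¹ := by
        rw [JJ_even l (A * V), ← mul_assoc A, ← mul_assoc A, ← JJ_even c A]
        simp only [mul_assoc]
      calc (JJ : G2) ^ p * A * (JJ ^ E)⁻¹ *
            (JJ ^ E * (JJ ^ (2 * c) * V) * (JJ ^ (2 * l) * (JJ ^ F)⁻¹))
          = (JJ : G2) ^ p * (A * (JJ ^ (2 * c) * V * (JJ ^ (2 * l) * (JJ ^ F)⁻¹))) := by group
        _ = (JJ : G2) ^ p * (JJ ^ (2 * c) * (JJ ^ (2 * l) * (A * V)) * (JJ ^ F)⁻¹) := by rw [h4]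
        _ = JJ ^ (p + 2 * c + 2 * l) * (A * V) * (JJ ^ F)⁻¹ := by
            rw [zpow_add _ _ (2 * l), zpow_add _ _ (2 * c)]
            simp only [mul_assoc]

/-- the representation and the degree are jointly injective -/
theorem rho2_inj (hm : 3 ≤ m) (hm2 : 2 ≤ m) {g : DA m} (h1 : rho2 hm2 g = 1) (h2 : dega m g = 1) :
    g = 1 := by
  obtain ⟨E, hE⟩ := exists_nf hm2 g
  rcases nf_image hm hm2 hE with ⟨k, rfl⟩ | ⟨p, A, hA, hA2⟩
  · rw [map_zpow, dega_del, ← ofAdd_zsmul] at h2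
    have h3 : k • (m : ℤ) = 0 := Multiplicative.ofAdd.injective h2
    rw [smul_eq_mul] at h3
    rcases mul_eq_zero.1 h3 with h3 | h3
    · rw [h3, zpow_zero]
    · omega
  · exfalso
    rw [h1] at hA2
    have h3 : A = JJ ^ ((E : ℤ) - p) := by
      have h4 : (JJ : G2) ^ p * A = JJ ^ (E : ℤ) := by
        rw [zpow_natCast]
        exact (mul_inv_eq_one.1 hA2.symm)
      rw [zpow_sub, ← h4]
      have h5 : (JJ : G2) ^ p * A * (JJ ^ p)⁻¹ = A := by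
        have h6 : (JJ : G2) ^ p * A = JJ ^ (E : ℤ) := h4
        have h7 : A = (JJ ^ p)⁻¹ * JJ ^ (E : ℤ) := by rw [← h6]; group
        rw [h6, h7, ← zpow_neg, ← zpow_add, ← zpow_add]
        congr 1
        ring
      rw [h5]
    exact hA.not_rot _ h3

end Pool.Agent.H56.DR
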