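import Pool.Agent.H52.PAG.Seg

/-!
# Normal forms in the dihedral Artin groups

Every element is `Δ ^ k w_1 ⋯ w_n`, the `w_i` are alternating words of length less than `m`, and the first letter of
`w_(i+1)` is the last letter of `w_i`.
-/

set_option autoImplicit false

namespace Pool.Agent.H56.DR

open Pool.Agent.H52.PAG

/-- `NF m g E`: `g` is a normal form and the next block starts with the letter `cc m E` -/
inductive NF (m : ℕ) : DA m → ℕ → Prop
  | dl (k : ℤ) (E : ℕ) : NF m (del m ^ k) E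
  | blk (h : DA m) (E b F : ℕ) : NF m h E → b + 2 ≤ m → F % 2 = (E + b) % 2 →
      NF m (h * seg m E (b + 1)) F

variable {m : ℕ}

/-- the index only matters modulo two -/
theorem NF.congr {h : DA m} {E F : ℕ} (hh : NF m h E) (hEF : F % 2 = E % 2) : NF m h F := by
  cases hh with
  | dl k E => exact NF.dl k _
  | blk h E' b _ hh hb he => exact NF.blk h E' b F hh hb (hEF.trans he)

theorem seg_congr {E F : ℕ} (hEF : E % 2 = F % 2) (n : ℕ) : seg m E n = seg m F n := by
  rcases le_total E F with hle | hle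
  · obtain ⟨l, rfl⟩ : ∃ l, F = E + 2 * l := ⟨(F - E) / 2, by omega⟩
    rw [seg_shift]
  · obtain ⟨l, rfl⟩ : ∃ l, E = F + 2 * l := ⟨(E - F) / 2, by omega⟩
    rw [seg_shift]

theorem cc_congr {E F : ℕ} (hEF : E % 2 = F % 2) : cc m E = cc m F := by
  have h := seg_congr (m := m) hEF 1
  simpa only [seg, mul_one] using h

theorem seg_mul_del (E n : ℕ) : seg m E n * del m = del m * seg m (E + m) n := by
  induction n generalizing E with
  | zero => simp only [seg, one_mul, mul_one]
  | succ n ih =>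
    simp only [seg]
    rw [mul_assoc, ih, ← mul_assoc, cc_del, mul_assoc]
    congr 3
    ring

theorem seg_mul_del_inv (E n : ℕ) : seg m E n * (del m)⁻¹ = (del m)⁻¹ * seg m (E + m) n := by
  have h1 := seg_mul_del (m := m) (E + m) n
  rw [eq_inv_mul_iff_mul_eq, ← mul_assoc, mul_inv_eq_iff_eq_mul, h1]
  congr 1
  exact seg_congr (by omega) n

theorem NF.mul_del {h : DA m} {E : ℕ} (hh : NF m h E) : NF m (h * del m) (E + m) := by
  induction hh with
  | dl k E =>
    rw [← zpow_add_one]
    exact NF.dl _ _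
  | blk h E b F _ hb he ih =>
    rw [mul_assoc, seg_mul_del, ← mul_assoc]
    exact NF.blk _ _ _ _ ih hb (by omega)

theorem NF.mul_del_inv {h : DA m} {E : ℕ} (hh : NF m h E) : NF m (h * (del m)⁻¹) (E + m) := by
  induction hh with
  | dl k E =>
    rw [← zpow_sub_one]
    exact NF.dl _ _
  | blk h E b F _ hb he ih =>
    rw [mul_assoc, seg_mul_del_inv, ← mul_assoc]
    exact NF.blk _ _ _ _ ih hb (by omega)

theorem NF.mul_cc (hm : 2 ≤ m) {h : DA m} {E : ℕ} (hh : NF m h E) (F : ℕ) :
    ∃ E', NF m (h * cc m F) E' := by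
  have h1 : cc m F = seg m F 1 := by simp only [seg, mul_one]
  cases hh with
  | dl k E =>
    rw [h1]
    exact ⟨F, NF.blk _ F 0 F (NF.dl k F) (by omega) rfl⟩
  | blk h E b F' hh hb he =>
    by_cases hF : F % 2 = (E + b) % 2
    · rw [h1]
      exact ⟨F, NF.blk _ F 0 F ((NF.blk h E b F hh hb hF)) (by omega) rfl⟩
    · have h2 : cc m F = cc m (E + (b + 1)) := cc_congr (by omega)
      rw [mul_assoc, h2, ← seg_succ']
      by_cases hb3 : b + 3 ≤ m
      · exact ⟨_, NF.blk h E (b + 1) (E + (b + 1)) hh hb3 rfl⟩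
      · have h3 : b + 1 + 1 = m := by omega
        rw [h3, seg_del]
        exact ⟨_, hh.mul_del⟩

theorem NF.mul_seg (hm : 2 ≤ m) {h : DA m} {E : ℕ} (hh : NF m h E) (F n : ℕ) :
    ∃ E', NF m (h * seg m F n) E' := by
  induction n generalizing h E F with
  | zero =>
    simp only [seg, mul_one]
    exact ⟨E, hh⟩
  | succ n ih =>
    obtain ⟨E', h1⟩ := hh.mul_cc hm F
    simp only [seg]
    rw [← mul_assoc]
    exact ih h1 _

theorem NF.mul_cc_inv (hm : 2 ≤ m) {h : DA m} {E : ℕ} (hh : NF m h E) (F : ℕ) :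
    ∃ E', NF m (h * (cc m F)⁻¹) E' := by
  have h1 : seg m (F + m + 1) (m - 1) * cc m F = del m := by
    have h2 := seg_succ' m (F + m + 1) (m - 1)
    have h3 : m - 1 + 1 = m := by omega
    rw [h3, seg_del] at h2
    rw [h2]
    congr 1
    exact cc_congr (by omega)
  have h4 : (cc m F)⁻¹ = (del m)⁻¹ * seg m (F + m + 1) (m - 1) := by
    rw [← h1]
    group
  rw [h4, ← mul_assoc]
  exact hh.mul_del_inv.mul_seg hm _ _

/-- every element has a normal form -/
theorem exists_nf (hm : 2 ≤ m) (g : DA m) : ∃ E, NF m g E := by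
  have h0 : ∀ e : Bool, ∃ k, dg m e = cc m k := by
    intro e
    cases e
    · exact ⟨0, congrArg (dg m) (by decide)⟩
    · exact ⟨1, congrArg (dg m) (by decide)⟩
  induction g using da_induction with
  | h1 => exact ⟨0, by simpa using NF.dl (m := m) 0 0⟩
  | h2 x i h =>
    obtain ⟨E, h⟩ := h
    obtain ⟨k, hk⟩ := h0 i
    rw [hk]
    exact h.mul_cc hm k
  | h3 x i h =>
    obtain ⟨E, h⟩ := h
    obtain ⟨k, hk⟩ := h0 i
    rw [hk]
    exact h.mul_cc_inv hm k

end Pool.Agent.H56.DR
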