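import Pool.Agent.H56.DR.Inj

/-!
# Transvections: the two-generator subgroups
-/

set_option autoImplicit false

namespace Pool.Agent.H56.DR

open Pool.Agent.H52.PAG

section

variable {B K : Type} [Fintype B] [DecidableEq B] [CommRing K] (a : B → B → K)

/-- the rank one matrix `x ↦ ω(x, e_s) e_s`, `ω(e_t, e_s) = a t s` -/
def Em (s : B) : Matrix B B K := Matrix.of fun i t => if i = s then a t s else 0

/-- the transvection -/
def Tm (s : B) : Matrix B B K := 1 + Em a s

theorem Em_sq {s : B} (h : a s s = 0) : Em a s * Em a s = 0 := by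
  ext i t
  rw [Matrix.mul_apply, Matrix.zero_apply]
  refine Finset.sum_eq_zero fun u _ => ?_
  show (if i = s then a u s else 0) * (if u = s then a t s else 0) = 0
  by_cases hu : u = s
  · subst hu
    by_cases hi : i = u
    · rw [if_pos hi, h, zero_mul]
    · rw [if_neg hi, zero_mul]
  · rw [if_neg hu, mul_zero]

/-- the transvection as a unit -/
def Tu (s : B) (h : a s s = 0) : GL B K where
  val := 1 + Em a s
  inv := 1 - Em a s
  val_inv := by
    have := Em_sq a h
    rw [mul_sub, mul_one, add_mul, one_mul, this]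
    abel
  inv_val := by
    have := Em_sq a h
    rw [mul_add, mul_one, sub_mul, one_mul, this]
    abel

/-- the inclusion of the span of `e_i`, `e_j` -/
def io (K : Type) [CommRing K] (i j : B) : Matrix B (Fin 2) K :=
  Matrix.of fun b k => if b = ![i, j] k then 1 else 0

/-- the two functionals -/
def pr (i j : B) : Matrix (Fin 2) B K := Matrix.of fun k t => a t (![i, j] k)

theorem pr_io (i j : B) : pr a i j * io K i j = !![a i i, a j i; a i j, a j j] := by
  ext k l
  rw [Matrix.mul_apply]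
  have h : ∀ t, pr a i j k t * io K i j t l =
      if t = ![i, j] l then a t (![i, j] k) else 0 := by
    intro t
    show a t (![i, j] k) * (if t = ![i, j] l then 1 else 0) = _
    by_cases ht : t = ![i, j] l
    · rw [if_pos ht, if_pos ht, mul_one]
    · rw [if_neg ht, if_neg ht, mul_zero]
  rw [Finset.sum_congr rfl fun t _ => h t, Finset.sum_ite_eq', if_pos (Finset.mem_univ _)]
  fin_cases k <;> fin_cases l <;> rfl

theorem Em_eq_fst (i j : B) : Em a i = io K i j * (!![1, 0; 0, 0] : Matrix (Fin 2) (Fin 2) K) * pr a i j := by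
  ext b t
  rw [Matrix.mul_apply, Fin.sum_univ_two, Matrix.mul_apply, Matrix.mul_apply, Fin.sum_univ_two,
    Fin.sum_univ_two]
  show (if b = i then a t i else 0) = ((if b = i then 1 else 0) * 1 + (if b = j then 1 else 0) * 0) * a t i +
    ((if b = i then 1 else 0) * 0 + (if b = j then 1 else 0) * 0) * a t j
  by_cases h : b = i <;> simp [h]

theorem Em_eq_snd (i j : B) : Em a j = io K i j * (!![0, 0; 0, 1] : Matrix (Fin 2) (Fin 2) K) * pr a i j := by
  ext b t
  rw [Matrix.mul_apply, Fin.sum_univ_two, Matrix.mul_apply, Matrix.mul_apply, Fin.sum_univ_two,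
    Fin.sum_univ_two]
  show (if b = j then a t j else 0) = ((if b = i then 1 else 0) * 0 + (if b = j then 1 else 0) * 0) * a t i +
    ((if b = i then 1 else 0) * 0 + (if b = j then 1 else 0) * 1) * a t j
  by_cases h : b = j <;> simp [h]

/-- `X = 1 + ι c π` and `A = 1 + c π ι` -/
def Rel (i j : B) (X : Matrix B B K) (A : Matrix (Fin 2) (Fin 2) K) : Prop :=
  ∃ c : Matrix (Fin 2) (Fin 2) K, X = 1 + io K i j * c * pr a i j ∧ A = 1 + c * (pr a i j * io K i j)

theorem Rel.one (i j : B) : Rel a i j 1 1 := ⟨0, by simp, by simp⟩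

variable {a}

theorem Rel.mul {i j : B} {X Y : Matrix B B K} {A A' : Matrix (Fin 2) (Fin 2) K}
    (h : Rel a i j X A) (h' : Rel a i j Y A') : Rel a i j (X * Y) (A * A') := by
  obtain ⟨c, rfl, rfl⟩ := h
  obtain ⟨d, rfl, rfl⟩ := h'
  refine ⟨c + d + c * (pr a i j * io K i j) * d, ?_, ?_⟩
  · simp only [mul_add, add_mul, mul_one, one_mul, Matrix.mul_add, Matrix.add_mul, Matrix.mul_assoc]
    abel
  · simp only [mul_add, add_mul, mul_one, one_mul, Matrix.mul_assoc]
    abel

theorem rel_fst {i j : B} (hi : a i i = 0) (hj : a j j = 0) :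
    Rel a i j (Tm a i) !![1, a j i; 0, 1] := by
  refine ⟨!![1, 0; 0, 0], by rw [Tm, Em_eq_fst a i j], ?_⟩
  rw [pr_io, hi, hj]
  ext k l
  fin_cases k <;> fin_cases l <;> simp [Matrix.mul_apply]

theorem rel_snd {i j : B} (hi : a i i = 0) (hj : a j j = 0) :
    Rel a i j (Tm a j) !![1, 0; a i j, 1] := by
  refine ⟨!![0, 0; 0, 1], by rw [Tm, Em_eq_snd a i j], ?_⟩
  rw [pr_io, hi, hj]
  ext k l
  fin_cases k <;> fin_cases l <;> simp [Matrix.mul_apply]

theorem rel_fst_inv {i j : B} (hi : a i i = 0) (hj : a j j = 0) :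
    Rel a i j (1 - Em a i) !![1, -a j i; 0, 1] := by
  refine ⟨-!![1, 0; 0, 0], ?_, ?_⟩
  · rw [Em_eq_fst a i j, Matrix.mul_neg, Matrix.neg_mul, sub_eq_add_neg]
  · rw [pr_io, hi, hj]
    ext k l
    fin_cases k <;> fin_cases l <;> simp [Matrix.mul_apply]

theorem rel_snd_inv {i j : B} (hi : a i i = 0) (hj : a j j = 0) :
    Rel a i j (1 - Em a j) !![1, 0; -a i j, 1] := by
  refine ⟨-!![0, 0; 0, 1], ?_, ?_⟩
  · rw [Em_eq_snd a i j, Matrix.mul_neg, Matrix.neg_mul, sub_eq_add_neg]
  · rw [pr_io, hi, hj]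
    ext k l
    fin_cases k <;> fin_cases l <;> simp [Matrix.mul_apply]

end

section

variable {B K : Type} [Fintype B] [DecidableEq B] [CommRing K] [IsDomain K] {a : B → B → K}

/-- the Gram matrix is invertible -/
theorem gram_inj {i j : B} (hi : a i i = 0) (hj : a j j = 0) (h1 : a i j ≠ 0) (h2 : a j i ≠ 0)
    {c : Matrix (Fin 2) (Fin 2) K} (h : c * (pr a i j * io K i j) = 0) : c = 0 := by
  rw [pr_io, hi, hj] at h
  ext k l
  have h3 := congrFun (congrFun h k) 0
  have h4 := congrFun (congrFun h k) 1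
  simp [Matrix.mul_apply, h1, h2] at h3 h4
  fin_cases l
  · exact h4
  · exact h3

theorem gram_inj' {i j : B} (hi : a i i = 0) (hj : a j j = 0) (h1 : a i j ≠ 0) (h2 : a j i ≠ 0)
    {c : Matrix (Fin 2) (Fin 2) K} (h : (pr a i j * io K i j) * c = 0) : c = 0 := by
  rw [pr_io, hi, hj] at h
  ext k l
  have h3 := congrFun (congrFun h 0) l
  have h4 := congrFun (congrFun h 1) l
  simp [Matrix.mul_apply, h1, h2] at h3 h4
  fin_cases k
  · exact h4
  · exact h3

/-- the small matrix determines the large one -/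
theorem Rel.inj {i j : B} (hi : a i i = 0) (hj : a j j = 0) (h1 : a i j ≠ 0) (h2 : a j i ≠ 0)
    {X Y : Matrix B B K} {A : Matrix (Fin 2) (Fin 2) K} (h : Rel a i j X A) (h' : Rel a i j Y A) :
    X = Y := by
  obtain ⟨c, rfl, hc⟩ := h
  obtain ⟨d, rfl, hd⟩ := h'
  have h3 : (c - d) * (pr a i j * io K i j) = 0 := by
    rw [Matrix.sub_mul, sub_eq_zero]
    exact add_left_cancel (hc.symm.trans hd)
  have h4 := gram_inj hi hj h1 h2 h3
  rw [sub_eq_zero] at h4
  rw [h4]

/-- if the large matrix is the identity then so is the small one -/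
theorem Rel.eq_one {i j : B} (hi : a i i = 0) (hj : a j j = 0) (h1 : a i j ≠ 0) (h2 : a j i ≠ 0)
    {A : Matrix (Fin 2) (Fin 2) K} (h : Rel a i j 1 A) : A = 1 := by
  obtain ⟨c, hc, rfl⟩ := h
  have h3 : io K i j * c * pr a i j = 0 := by
    have := hc.symm
    rwa [add_eq_left] at this
  have h4 : (pr a i j * io K i j) * (c * (pr a i j * io K i j)) = 0 := by
    have h5 : (pr a i j * io K i j) * (c * (pr a i j * io K i j)) =
        pr a i j * (io K i j * c * pr a i j) * io K i j := by simp only [Matrix.mul_assoc]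
    rw [h5, h3, Matrix.mul_zero, Matrix.zero_mul]
  rw [gram_inj' hi hj h1 h2 h4, add_zero]

end

end Pool.Agent.H56.DR
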