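import Pool.Agent.H56.DR.Nf

/-!
# The representation of the dihedral Artin group in `SL₂(ℝ)`
-/

set_option autoImplicit false

namespace Pool.Agent.H56.DR

open Pool.Agent.H52.PAG

/-- the group `SL₂(ℝ)` -/
abbrev G2 : Type := Matrix.SpecialLinearGroup (Fin 2) ℝ

/-- the matrix -/
def mt (A : G2) : Matrix (Fin 2) (Fin 2) ℝ := A.1

theorem mt_mul (A B : G2) : mt (A * B) = mt A * mt B := rfl

theorem mt_one : mt 1 = 1 := rfl

theorem mt_pow (A : G2) (n : ℕ) : mt (A ^ n) = mt A ^ n := by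
  induction n with
  | zero => rw [pow_zero, pow_zero, mt_one]
  | succ n ih => rw [pow_succ, pow_succ, mt_mul, ih]

theorem mt_inv (A : G2) : mt A⁻¹ = Matrix.adjugate (mt A) := rfl

theorem mt_inj {A B : G2} (h : mt A = mt B) : A = B := Subtype.ext h

/-- the rotation -/
def JJ : G2 := ⟨!![0, 1; -1, 0], by rw [Matrix.det_fin_two_of]; norm_num⟩

/-- the image of the first generator -/
def SS (L : ℝ) : G2 := ⟨!![1, L; 0, 1], by rw [Matrix.det_fin_two_of]; norm_num⟩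

/-- the image of the second generator -/
def TT (L : ℝ) : G2 := ⟨!![1, 0; -L, 1], by rw [Matrix.det_fin_two_of]; norm_num⟩

theorem mt_JJ : mt JJ = !![0, 1; -1, 0] := rfl

theorem mt_SS (L : ℝ) : mt (SS L) = !![1, L; 0, 1] := rfl

theorem mt_TT (L : ℝ) : mt (TT L) = !![1, 0; -L, 1] := rfl

theorem JJ_sq : mt (JJ ^ 2) = -1 := by
  rw [mt_pow, mt_JJ, pow_two]
  ext i j
  fin_cases i <;> fin_cases j <;> simp [Matrix.mul_apply]

theorem JJ_sq_mul (X : G2) : JJ ^ 2 * X = X * JJ ^ 2 := by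
  apply mt_inj
  rw [mt_mul, mt_mul, JJ_sq]
  simp

theorem JJ_even (l : ℤ) (X : G2) : JJ ^ (2 * l) * X = X * JJ ^ (2 * l) := by
  have h : Commute (JJ ^ 2) X := JJ_sq_mul X
  have h1 := h.zpow_left l
  have h2 : (JJ ^ 2 : G2) ^ l = JJ ^ (2 * l) := by
    rw [← zpow_natCast, ← _root_.zpow_mul]
    norm_num
  rw [h2] at h1
  exact h1

theorem JJ_conj (L : ℝ) : JJ * SS L * JJ⁻¹ = TT L := by
  rw [mul_inv_eq_iff_eq_mul]
  apply mt_inj
  rw [mt_mul, mt_mul, mt_JJ, mt_SS, mt_TT]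
  ext i j
  fin_cases i <;> fin_cases j <;> simp [Matrix.mul_apply]

/-- alternating words -/
theorem alt_G2 (L : ℝ) (k n : ℕ) :
    alt (JJ ^ k * SS L * (JJ ^ k)⁻¹) (JJ ^ (k + 1) * SS L * (JJ ^ (k + 1))⁻¹) n =
      JJ ^ k * (SS L * JJ) ^ n * (JJ ^ (k + n))⁻¹ := by
  induction n generalizing k with
  | zero => simp [alt]
  | succ n ih =>
    have h1 : JJ ^ (k + 1 + 1) * SS L * (JJ ^ (k + 1 + 1))⁻¹ = JJ ^ k * SS L * (JJ ^ k)⁻¹ := by
      have h2 : (JJ : G2) ^ (k + 1 + 1) = JJ ^ k * JJ ^ 2 := by rw [← pow_add]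
      rw [h2, mul_inv_rev, mul_assoc (JJ ^ k), JJ_sq_mul (SS L)]
      group
    have h3 := ih (k + 1)
    rw [h1] at h3
    simp only [alt]
    have h4 : (JJ : G2) ^ (k + 1) = JJ ^ k * JJ := pow_succ _ _
    have h5 : k + 1 + n = k + (n + 1) := by ring
    rw [h3, pow_succ' (SS L * JJ) n, h4, h5]
    generalize (SS L * JJ) ^ n = Y
    generalize (JJ ^ (k + (n + 1)))⁻¹ = Z
    generalize (JJ : G2) ^ k = W
    group

section

variable (m : ℕ)

/-- `sin (x π / m) / sin (π / m)` -/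
noncomputable def sk (x : ℝ) : ℝ := Real.sin (x * (Real.pi / m)) / Real.sin (Real.pi / m)

/-- `2 cos (π / m)` -/
noncomputable def LL : ℝ := 2 * Real.cos (Real.pi / m)

variable {m}

theorem sin_pos (hm : 2 ≤ m) : 0 < Real.sin (Real.pi / m) := by
  have h1 : (2 : ℝ) ≤ m := by exact_mod_cast hm
  have h2 := Real.pi_pos
  apply Real.sin_pos_of_pos_of_lt_pi (by positivity)
  rw [div_lt_iff₀ (by linarith)]
  nlinarith

theorem sk_rec (x : ℝ) : sk m (x + 1) + sk m (x - 1) = LL m * sk m x := by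
  unfold sk LL
  rw [add_mul, sub_mul, one_mul, Real.sin_add, Real.sin_sub]
  ring

theorem sk_zero : sk m 0 = 0 := by simp [sk]

theorem sk_one (hm : 2 ≤ m) : sk m 1 = 1 := by
  unfold sk
  rw [one_mul, div_self (sin_pos hm).ne']

theorem sk_neg_one (hm : 2 ≤ m) : sk m (-1) = -1 := by
  unfold sk
  rw [neg_one_mul, Real.sin_neg, neg_div, div_self (sin_pos hm).ne']

theorem sk_m (hm : 2 ≤ m) : sk m m = 0 := by
  have h1 : (m : ℝ) ≠ 0 := by positivity
  unfold sk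
  rw [mul_div_cancel₀ _ h1, Real.sin_pi, zero_div]

theorem sk_m_add (hm : 2 ≤ m) : sk m (m + 1) = -1 := by
  have h1 : (m : ℝ) ≠ 0 := by positivity
  unfold sk
  rw [add_mul, mul_div_cancel₀ _ h1, one_mul, add_comm, Real.sin_add_pi, neg_div,
    div_self (sin_pos hm).ne']

theorem sk_m_sub (hm : 2 ≤ m) : sk m (m - 1) = 1 := by
  have h1 : (m : ℝ) ≠ 0 := by positivity
  unfold sk
  rw [sub_mul, mul_div_cancel₀ _ h1, one_mul, Real.sin_pi_sub, div_self (sin_pos hm).ne']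

theorem sk_nonneg (hm : 2 ≤ m) {x : ℝ} (h0 : 0 ≤ x) (h1 : x ≤ m) : 0 ≤ sk m x := by
  have h2 := Real.pi_pos
  have h3 : (0 : ℝ) < m := by positivity
  refine div_nonneg (Real.sin_nonneg_of_nonneg_of_le_pi (by positivity) ?_) (sin_pos hm).le
  rw [mul_div_assoc', div_le_iff₀ h3]
  nlinarith

theorem sk_pos (hm : 2 ≤ m) {x : ℝ} (h0 : 0 < x) (h1 : x < m) : 0 < sk m x := by
  have h2 := Real.pi_pos
  have h3 : (0 : ℝ) < m := by positivity
  refine div_pos (Real.sin_pos_of_pos_of_lt_pi (by positivity) ?_) (sin_pos hm)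
  rw [mul_div_assoc', div_lt_iff₀ h3]
  nlinarith

theorem LL_pos (hm : 3 ≤ m) : 0 < LL m := by
  have h1 : (3 : ℝ) ≤ m := by exact_mod_cast hm
  have h2 := Real.pi_pos
  have h3 : Real.pi / m < Real.pi / 2 := by
    apply div_lt_div_of_pos_left h2 (by norm_num) (by linarith)
  have h4 : 0 < Real.cos (Real.pi / m) := by
    apply Real.cos_pos_of_mem_Ioo
    constructor
    · have : 0 < Real.pi / m := by positivity
      linarith
    · exact h3
  unfold LL
  linarith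

/-- the powers of the rotation `S J` -/
theorem R_pow (hm : 2 ≤ m) (a : ℕ) :
    mt ((SS (LL m) * JJ) ^ a * JJ⁻¹) =
      (-1 : ℝ) ^ (a + 1) • !![sk m a, sk m (a + 1); sk m (a - 1), sk m a] := by
  have hR : mt (SS (LL m) * JJ) = !![-LL m, 1; -1, 0] := by
    rw [mt_mul, mt_SS, mt_JJ]
    ext i j
    fin_cases i <;> fin_cases j <;> simp [Matrix.mul_apply]
  induction a with
  | zero =>
    rw [pow_zero, one_mul, mt_inv, mt_JJ, Matrix.adjugate_fin_two_of, Nat.cast_zero, zero_add, zero_add, zero_sub,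
      sk_zero, sk_one hm, sk_neg_one hm]
    ext i j
    fin_cases i <;> fin_cases j <;> simp
  | succ a ih =>
    rw [pow_succ', mul_assoc, mt_mul, ih, hR]
    have h1 := sk_rec (m := m) a
    have h2 := sk_rec (m := m) (a + 1)
    have h3 : (a : ℝ) + 1 - 1 = a := by ring
    rw [h3] at h2
    push_cast
    rw [h3, Matrix.mul_smul, pow_succ (-1 : ℝ) (a + 1), mul_neg_one, neg_smul, ← smul_neg]
    congr 1
    ext i j
    fin_cases i <;> fin_cases j <;> simp [Matrix.mul_apply] <;> linarith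

theorem R_m (hm : 2 ≤ m) : (SS (LL m) * JJ) ^ m = JJ ^ (2 * ((m : ℤ) + 1)) := by
  have h1 := R_pow hm m
  rw [sk_m hm, sk_m_add hm, sk_m_sub hm] at h1
  have h2 : mt (JJ ^ (2 * ((m : ℤ) + 1)) * JJ⁻¹) = (-1 : ℝ) ^ (m + 1) • !![0, -1; 1, 0] := by
    have h3 : (JJ ^ (2 * ((m : ℤ) + 1)) : G2) = (JJ ^ 2) ^ (m + 1) := by
      rw [← pow_mul, ← zpow_natCast]
      push_cast
      rfl
    rw [h3, mt_mul, mt_pow, JJ_sq, mt_inv, mt_JJ, Matrix.adjugate_fin_two_of]
    rcases Nat.even_or_odd (m + 1) with he | he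
    · rw [he.neg_one_pow, he.neg_one_pow]
      ext i j
      fin_cases i <;> fin_cases j <;> simp
    · rw [he.neg_one_pow, he.neg_one_pow]
      ext i j
      fin_cases i <;> fin_cases j <;> simp
  have h4 : ((SS (LL m) * JJ) ^ m * JJ⁻¹ : G2) = JJ ^ (2 * ((m : ℤ) + 1)) * JJ⁻¹ :=
    mt_inj (h1.trans h2.symm)
  exact mul_right_cancel h4

theorem alt_SS_TT (L : ℝ) (n : ℕ) : alt (SS L) (TT L) n = (SS L * JJ) ^ n * (JJ ^ n)⁻¹ := by
  have h := alt_G2 L 0 n
  rw [pow_zero, one_mul, inv_one, mul_one, zero_add, pow_one, JJ_conj, one_mul, zero_add] at h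
  exact h

theorem alt_TT_SS (L : ℝ) (n : ℕ) : alt (TT L) (SS L) n = JJ * (SS L * JJ) ^ n * (JJ ^ (1 + n))⁻¹ := by
  have h := alt_G2 L 1 n
  have h1 : JJ ^ (1 + 1) * SS L * (JJ ^ (1 + 1))⁻¹ = SS L := by
    rw [one_add_one_eq_two, JJ_sq_mul]
    group
  rw [h1, pow_one, JJ_conj] at h
  exact h

theorem braid_G2 (hm : 2 ≤ m) : alt (SS (LL m)) (TT (LL m)) m = alt (TT (LL m)) (SS (LL m)) m := by
  rw [alt_SS_TT, alt_TT_SS, R_m hm, ← JJ_even, pow_add, pow_one]
  group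

/-- the representation of the dihedral Artin group -/
noncomputable def rho2 (hm : 2 ≤ m) : DA m →* G2 :=
  dlift (fun e => if e then TT (LL m) else SS (LL m)) (braid_G2 hm)

theorem rho2_cc (hm : 2 ≤ m) (k : ℕ) : rho2 hm (cc m k) = JJ ^ k * SS (LL m) * (JJ ^ k)⁻¹ := by
  induction k using Nat.twoStepInduction with
  | zero =>
    have h : cc m 0 = dg m false := congrArg (dg m) (by decide)
    rw [h, rho2, dlift_dg, pow_zero, one_mul, inv_one, mul_one]
    rfl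
  | one =>
    have h : cc m 1 = dg m true := congrArg (dg m) (by decide)
    rw [h, rho2, dlift_dg, pow_one, JJ_conj]
    rfl
  | more k ih _ =>
    rw [cc_add_two, ih, pow_add, mul_inv_rev, mul_assoc (JJ ^ k) (JJ ^ 2), JJ_sq_mul]
    group

theorem rho2_seg (hm : 2 ≤ m) (E n : ℕ) :
    rho2 hm (seg m E n) = JJ ^ E * (SS (LL m) * JJ) ^ n * (JJ ^ (E + n))⁻¹ := by
  rw [seg_eq_alt, map_alt, rho2_cc, rho2_cc, alt_G2]

theorem rho2_del (hm : 2 ≤ m) : rho2 hm (del m) = JJ ^ ((m : ℤ) + 2) := by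
  have h : del m = seg m 0 m := rfl
  rw [h, rho2_seg, R_m hm, pow_zero, one_mul, zero_add, ← zpow_natCast, ← zpow_neg, ← zpow_add]
  congr 1
  ring

end

end Pool.Agent.H56.DR
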